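import Pool.Agent.helper3.AP.SpecG

/-!
Row `ap:GAP`: the power of the ideal of a tuple.
-/

set_option autoImplicit false

namespace Pool.Agent.AP

open Finset NumberField Pool.Agent.helper3.FT Pool.Agent.helper47.RA Pool.Agent.T5

open Pointwise in
theorem GAP_mem {R : Type} [CommRing R] (a b : R) (n : ℕ) :
    ∀ x ∈ ({a, b} : Set R) ^ n, ∃ i, i ≤ n ∧ x = a ^ i * b ^ (n - i) := by
  induction n with
  | zero =>
    intro x hx
    rw [pow_zero, Set.mem_one] at hx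
    exact ⟨0, le_rfl, by simp [hx]⟩
  | succ n ih =>
    intro x hx
    rw [pow_succ, Set.mem_mul] at hx
    obtain ⟨u, hu, v, hv, rfl⟩ := hx
    obtain ⟨i, hi, rfl⟩ := ih u hu
    rcases hv with rfl | hv
    · refine ⟨i + 1, by omega, ?_⟩
      have : n + 1 - (i + 1) = n - i := by omega
      rw [this]
      ring
    · rw [Set.mem_singleton_iff] at hv
      subst hv
      refine ⟨i, by omega, ?_⟩
      have : n + 1 - i = (n - i) + 1 := by omega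
      rw [this]
      ring

theorem GAP_span {R : Type} [CommRing R] (a b : R) (n : ℕ) (J : Ideal R)
    (h : ∀ i, i ≤ n → a ^ i * b ^ (n - i) ∈ J) : Ideal.span {a, b} ^ n ≤ J := by
  rw [Ideal.span, Submodule.span_pow, Submodule.span_le]
  intro u hu
  obtain ⟨i, hi, rfl⟩ := GAP_mem _ _ _ u hu
  exact h i hi

theorem GAP_dvd {R : Type} [CommRing R] (r θ n' : R) (h1 : r ∣ n') (h2 : r ∣ θ ^ 2) (i e : ℕ) :
    r ^ (i / 2 + e) ∣ θ ^ i * n' ^ e := by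
  rw [pow_add]
  refine mul_dvd_mul ?_ (pow_dvd_pow_of_dvd h1 e)
  have h3 : θ ^ i = (θ ^ 2) ^ (i / 2) * θ ^ (i % 2) := by
    rw [← pow_mul, ← pow_add]
    congr 1
    omega
  rw [h3]
  exact Dvd.dvd.mul_right (pow_dvd_pow_of_dvd h2 _) _

theorem GAP (hGTH : GTH_stmt) (hGAR : GAR_stmt) (hGAI : GAI_stmt) : GAP_stmt := by
  intro p K _ _ Q r z y x hp hodd hTK
  obtain ⟨-, hrx, -, -, -, hr1⟩ := hGAR p Q.D r z y x hp Q.hD hTK
  obtain ⟨-, hnorm, -⟩ := hGAI p K Q r z y x hp hTK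
  have heq : x ^ 2 - Q.D * (y : ℤ) ^ 2 = 4 * ((r : ℤ) * (z : ℤ) ^ p) := by
    rw [hTK.eq]
    ring
  obtain ⟨-, htr, hN⟩ := (hGTH K Q).1 x y _ heq
  set θ : 𝓞 K := th Q x y with hθ
  set n' : 𝓞 K := ((r * z : ℕ) : 𝓞 K) with hn'
  obtain ⟨k, hk⟩ := hodd
  have hk2 : (p - 1) / 2 = k := by omega
  rw [hk2]
  have hrn : (r : 𝓞 K) ∣ n' := ⟨(z : 𝓞 K), by rw [hn', Nat.cast_mul]⟩
  have hN' : θ * Q.cj θ = (r : 𝓞 K) * (z : 𝓞 K) ^ p := by
    rw [hN]
    push_cast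
    ring
  have hsq : θ ^ 2 = (x : 𝓞 K) * θ - (r : 𝓞 K) * (z : 𝓞 K) ^ p := by
    rw [← hN', ← htr]
    ring
  have hrx' : (r : 𝓞 K) ∣ (x : 𝓞 K) := by
    obtain ⟨m, hm⟩ := hrx
    exact ⟨(m : 𝓞 K), by rw [hm]; push_cast; ring⟩
  have hr2 : (r : 𝓞 K) ∣ θ ^ 2 := by
    rw [hsq]
    exact dvd_sub (Dvd.dvd.mul_right hrx' _) (dvd_mul_right _ _)
  have hle : aid Q r z x y ^ p ≤ Ideal.span {(r : 𝓞 K) ^ k * θ} := by
    unfold aid
    refine GAP_span _ _ _ _ fun i hi => ?_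
    rw [Ideal.mem_span_singleton, ← hθ, ← hn']
    rcases Nat.eq_zero_or_pos i with h0 | h0
    · subst h0
      rw [pow_zero, one_mul, Nat.sub_zero]
      have h1 : n' ^ p = (r : 𝓞 K) ^ k * θ * ((r : 𝓞 K) ^ k * Q.cj θ) := by
        have h2 : (r : 𝓞 K) ^ k * θ * ((r : 𝓞 K) ^ k * Q.cj θ) =
            (r : 𝓞 K) ^ k * (r : 𝓞 K) ^ k * (θ * Q.cj θ) := by ring
        rw [h2, hN', hn', Nat.cast_mul, mul_pow, hk]
        ring
      rw [h1]
      exact dvd_mul_right _ _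
    · have h1 : θ ^ i * n' ^ (p - i) = (θ ^ (i - 1) * n' ^ (p - i)) * θ := by
        have h2 : θ ^ i = θ ^ (i - 1) * θ := by
          rw [← pow_succ]
          congr 1
          omega
        rw [h2]
        ring
      rw [h1]
      refine mul_dvd_mul ?_ dvd_rfl
      refine dvd_trans (pow_dvd_pow _ ?_) (GAP_dvd (r : 𝓞 K) θ n' hrn hr2 (i - 1) (p - i))
      omega
  have hd : Ideal.span {(r : 𝓞 K) ^ k * θ} ∣ aid Q r z x y ^ p := Ideal.dvd_iff_le.2 hle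
  have hrz : 0 < r * z := Nat.mul_pos hr1 hTK.z1
  have hn1 : Ideal.absNorm (aid Q r z x y ^ p) = (r * z) ^ p := by
    rw [map_pow, hnorm]
  have hn2 : Ideal.absNorm (Ideal.span {(r : 𝓞 K) ^ k * θ}) = (r * z) ^ p := by
    have h1 : ((r : 𝓞 K) ^ k * θ) * Q.cj ((r : 𝓞 K) ^ k * θ) =
        (((r : ℤ) * (z : ℤ)) ^ p : ℤ) := by
      rw [map_mul, map_pow, map_natCast]
      have h2 : (r : 𝓞 K) ^ k * θ * ((r : 𝓞 K) ^ k * Q.cj θ) =
          (r : 𝓞 K) ^ k * (r : 𝓞 K) ^ k * (θ * Q.cj θ) := by ring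
      rw [h2, hN']
      push_cast
      rw [mul_pow, hk]
      ring
    have h3 := Q.absNorm_eq _ _ h1
    rw [abs_of_nonneg (by positivity)] at h3
    exact_mod_cast h3
  exact (h96_eq_of_dvd hd (by rw [hn1]; positivity) (by rw [hn1, hn2])).symm

end Pool.Agent.AP
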