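import Pool.Agent.helper3.AP.SpecG

/-!
Row `ap:GBE`: from ideals to tuples.
-/

set_option autoImplicit false

namespace Pool.Agent.AP

open Finset NumberField Pool.Agent.helper3.FT Pool.Agent.helper47.RA Pool.Agent.T5

theorem GBE_fin {K : Type} [Field K] [NumberField K] (Q : QF K) (hGTH : GTH_stmt) (hGAI : GAI_stmt)
    (p : ℕ) (hp : 5 ≤ p) (a : Ideal (𝓞 K)) (r z : ℕ) (hr : Squarefree r) (hz : 1 ≤ z)
    (hn : Ideal.absNorm a = r * z) (ha0 : Ideal.absNorm a ≠ 0) (θ : 𝓞 K) (hθ : θ ∈ a)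
    (hN : θ * Q.cj θ = (((r : ℤ) * (z : ℤ) ^ p : ℤ) : 𝓞 K))
    (hco : IsCoprime (Q.Y θ) ((r : ℤ) * z)) (hrD : (r : ℤ) ∣ Q.D) (hy : 0 < Q.Y θ) :
    ∃ (y : ℕ) (x : ℤ), TK p Q.D r z y x ∧ a = aid Q r z x y := by
  obtain ⟨x, m, h1, -, h3, h4, -, -⟩ := (hGTH K Q).2.1 θ
  obtain ⟨y, hyy⟩ := Int.eq_ofNat_of_zero_le hy.le
  have hm : m = (r : ℤ) * (z : ℤ) ^ p := QF.int_inj (h3.symm.trans hN)
  have hy1 : 1 ≤ y := by
    rw [hyy] at hy
    exact_mod_cast hy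
  have hTK : TK p Q.D r z y x := by
    refine ⟨hr, hz, hy1, ?_, hrD, ?_⟩
    · rw [hyy] at hco
      rw [← Nat.isCoprime_iff_coprime]
      push_cast
      exact hco
    · rw [hyy, hm] at h4
      rw [h4]
      ring
  refine ⟨y, x, hTK, ?_⟩
  obtain ⟨-, hnorm, -⟩ := hGAI p K Q r z y x hp hTK
  have hd : a ∣ aid Q r z x y := by
    rw [Ideal.dvd_iff_le]
    unfold aid
    rw [Ideal.span_le]
    intro u hu
    rcases hu with rfl | hu
    · rw [← hyy, ← h1]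
      exact hθ
    · rw [Set.mem_singleton_iff] at hu
      rw [hu, ← hn]
      exact Ideal.absNorm_mem a
  exact h96_eq_of_dvd hd (by rw [hnorm, ← hn]; exact ha0) (by rw [hnorm, hn])

theorem GBE (hUEA : UEA_stmt) (hGBI : GBI_stmt) (hGTH : GTH_stmt) (hGAI : GAI_stmt) : GBE_stmt := by
  intro p K _ _ Q hp hodd hD a ha hprim hpr hnp
  obtain ⟨I, b, -, -, -, -, -, -, hn, hr1, hz1, hsf⟩ := hUEA K Q a ha hprim
  obtain ⟨θ, -, hθ, hN, hco, hrD⟩ := hGBI p K Q hp hodd hD a ha hprim hpr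
  have ha0 : Ideal.absNorm a ≠ 0 := by
    rw [hn]
    positivity
  have hY0 : Q.Y θ ≠ 0 := by
    intro h0
    rw [h0, isCoprime_zero_left] at hco
    have h1 : rr Q a * zz Q a = 1 := by
      have h2 : IsUnit (((rr Q a * zz Q a : ℕ) : ℤ)) := by
        push_cast
        exact hco
      rw [Int.ofNat_isUnit] at h2
      exact Nat.isUnit_iff.1 h2
    rw [h1] at hn
    rw [Ideal.absNorm_eq_one_iff] at hn
    apply hnp
    rw [hn]
    exact ⟨⟨1, by simp⟩⟩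
  rcases lt_or_gt_of_ne hY0 with hY | hY
  · have h1 : Q.Y (-θ) = -Q.Y θ := by
      have h2 := Q.Y_int_mul (-1) θ
      push_cast at h2
      rw [neg_one_mul, neg_one_mul] at h2
      exact h2
    obtain ⟨y, x, h3, h4⟩ := GBE_fin Q hGTH hGAI p hp a (rr Q a) (zz Q a) hsf hz1 hn ha0 (-θ)
      (a.neg_mem hθ) (by rw [map_neg, neg_mul_neg, hN]) (by rw [h1]; exact hco.neg_left) hrD
      (by rw [h1]; omega)
    exact ⟨_, _, y, x, h3, h4⟩
  · obtain ⟨y, x, h3, h4⟩ := GBE_fin Q hGTH hGAI p hp a (rr Q a) (zz Q a) hsf hz1 hn ha0 θ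
      hθ hN hco hrD hY
    exact ⟨_, _, y, x, h3, h4⟩

end Pool.Agent.AP
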