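import Pool.Agent.helper3.AP.SpecG

/-!
Row `ap:GBI`: from ideals to integers, adapted from `Pool/Agent/helper83/T5/UEI.lean`.
-/

set_option autoImplicit false

namespace Pool.Agent.AP

open Finset NumberField Pool.Agent.helper3.FT Pool.Agent.helper47.RA Pool.Agent.T5

theorem GBI_dec {A : Type*} [CommRing A] [IsDedekindDomain A] (a I b : Ideal A) (r θ : A) (k : ℕ)
    (hr0 : r ≠ 0) (hII : I * I = Ideal.span {r}) (hab : a = I * b)
    (hθ : a ^ (2 * k + 1) = Ideal.span {θ}) :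
    ∃ θ₁ : A, θ = r ^ k * θ₁ ∧ Ideal.span {θ₁} = I * b ^ (2 * k + 1) := by
  have h5 : a ^ (2 * k + 1) = Ideal.span {r ^ k} * (I * b ^ (2 * k + 1)) := by
    rw [← Ideal.span_singleton_pow, ← hII, hab, mul_pow, ← sq, ← pow_mul]
    ring
  have hdv : r ^ k ∣ θ := by
    rw [← Ideal.mem_span_singleton]
    have h1 : θ ∈ a ^ (2 * k + 1) := by
      rw [hθ]
      exact Ideal.mem_span_singleton_self θ
    rw [h5] at h1
    have h2 : Ideal.span {r ^ k} * (I * b ^ (2 * k + 1)) ≤ Ideal.span {r ^ k} := Ideal.mul_le_left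
    exact h2 h1
  obtain ⟨θ₁, hθ₁⟩ := hdv
  have hne : (Ideal.span {r ^ k} : Ideal A) ≠ 0 := by
    rw [Ne, Ideal.zero_eq_bot, Ideal.span_singleton_eq_bot]
    exact pow_ne_zero k hr0
  refine ⟨θ₁, hθ₁, ?_⟩
  apply mul_left_cancel₀ hne
  rw [← h5, hθ, hθ₁, Ideal.span_singleton_mul_span_singleton]

theorem GBI_top {A : Type*} [CommRing A] (I b c q : Ideal A) (p : ℕ) (hle : I * b ^ p ≤ q)
    (hle2 : I * c ^ p ≤ q) (hbb : b ⊔ c = ⊤) : I ≤ q := by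
  have htop : b ^ p ⊔ c ^ p = ⊤ := by
    rw [← Ideal.isCoprime_iff_sup_eq]
    exact (Ideal.isCoprime_iff_sup_eq.2 hbb).pow
  have h3 : I * (b ^ p ⊔ c ^ p) ≤ q := by
    rw [Ideal.mul_sup]
    exact sup_le hle hle2
  rwa [htop, Ideal.mul_top] at h3

theorem GBI (hUEA : UEA_stmt) : GBI_stmt := by
  intro p K _ _ Q hp hodd hD a ha hP hprin
  obtain ⟨k, hk⟩ := hodd
  have hk2 : (p - 1) / 2 = k := by omega
  rw [hk2]
  obtain ⟨I, b, hI, hab, hbI, hII, hbb, hNb, hNa, hr1, hz1, hsq⟩ := hUEA K Q a ha hP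
  have hNI : Ideal.absNorm I = rr Q a := by rw [hI]; rfl
  generalize rr Q a = r at *
  generalize zz Q a = z at *
  have hr0 : (r : 𝓞 K) ≠ 0 := Nat.cast_ne_zero.2 (by omega)
  obtain ⟨θ, hθ⟩ := hprin
  have hθ' : a ^ p = Ideal.span {θ} := hθ
  obtain ⟨θ₁, hθ₁, h1⟩ := GBI_dec a I b (r : 𝓞 K) θ k hr0 hII hab (by rw [← hk]; exact hθ')
  rw [← hk] at h1
  have hp0 : p ≠ 0 := by omega
  -- the integers
  set R := Q.Y θ₁ with hR
  obtain ⟨T, hT, -⟩ := Q.exists_trace θ₁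
  obtain ⟨N, hN, hNabs⟩ := Q.exists_norm θ₁
  have hsub := Q.sub_cj θ₁
  have h4 : T ^ 2 - Q.D * R ^ 2 = 4 * N := by
    apply QF.int_inj (K := K)
    push_cast
    rw [← Q.delta_sq, ← hT, ← hN]
    have h3 : (Q.Y θ₁ : 𝓞 K) ^ 2 * (2 * Q.ω - Q.t) ^ 2 = (θ₁ - Q.cj θ₁) ^ 2 := by
      rw [hsub]
      ring
    linear_combination -h3
  have hN0 : 0 ≤ N := by
    have h3 : 0 ≤ -Q.D * R ^ 2 := mul_nonneg (by omega) (sq_nonneg R)
    nlinarith [sq_nonneg T]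
  have hNeq : N = r * (z : ℤ) ^ p := by
    rw [h1, map_mul, map_pow, hNI, hNb, abs_of_nonneg hN0] at hNabs
    rw [← hNabs]
    push_cast
    rfl
  -- coprimality
  have hcop : IsCoprime R ((r : ℤ) * z) := by
    rw [Int.isCoprime_iff_gcd_eq_one]
    by_contra hg
    obtain ⟨q, hq, hqd⟩ := Nat.exists_prime_and_dvd hg
    have hq1 : (q : ℤ) ∣ R := (Int.natCast_dvd_natCast.2 hqd).trans (Int.gcd_dvd_left _ _)
    have hq2 : (q : ℤ) ∣ (r : ℤ) * z := (Int.natCast_dvd_natCast.2 hqd).trans (Int.gcd_dvd_right _ _)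
    have hq3 : (q : ℤ) ∣ N := by
      rw [hNeq]
      rcases (Nat.prime_iff_prime_int.1 hq).dvd_or_dvd hq2 with h | h
      · exact dvd_mul_of_dvd_left h _
      · exact dvd_mul_of_dvd_right (dvd_pow h hp0) _
    have hq4 : (q : 𝓞 K) ∣ θ₁ := Q.dvd_of_dvd q hq θ₁ N hN hq1 hq3
    have hle : I * b ^ p ≤ Ideal.span {(q : 𝓞 K)} := by
      rw [← h1, Ideal.span_singleton_le_span_singleton]
      exact hq4
    have hle2 : I * Q.bar b ^ p ≤ Ideal.span {(q : 𝓞 K)} := by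
      have h3 : Q.bar (I * b ^ p) ≤ Q.bar (Ideal.span {(q : 𝓞 K)}) := Ideal.map_mono hle
      rw [Q.bar_mul, Q.bar_pow, hbI, Q.bar_span, map_natCast] at h3
      exact h3
    have hIq : I ≤ Ideal.span {(q : 𝓞 K)} := GBI_top I b (Q.bar b) _ p hle hle2 hbb
    apply hP q hq
    rw [Ideal.dvd_iff_le, hab]
    have h6 : I * b ≤ I := Ideal.mul_le_left
    exact h6.trans hIq
  -- `θ₁ ∈ a`
  have hθI : θ₁ ∈ I * b ^ p := by
    rw [← h1]
    exact Ideal.mem_span_singleton_self θ₁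
  have hθa : θ₁ ∈ a := by
    rw [hab]
    exact Ideal.mul_mono_right (Ideal.pow_le_self hp0) hθI
  have hθI' : θ₁ ∈ I := by
    have h6 : I * b ^ p ≤ I := Ideal.mul_le_left
    exact h6 hθI
  have hcI : Q.cj θ₁ ∈ I := by
    rw [← hbI]
    exact Ideal.mem_map_of_mem Q.cj hθI'
  have hTI : (T : 𝓞 K) ∈ I := by
    rw [← hT]
    exact I.add_mem hθI' hcI
  have hTT : (r : 𝓞 K) ∣ (T : 𝓞 K) * T := by
    rw [← Ideal.mem_span_singleton, ← hII]
    exact Ideal.mul_mem_mul hTI hTI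
  have hTr : (r : ℤ) ∣ T := by
    have h3 := (Q.int_dvd_iff (r : ℤ) (by exact_mod_cast (show r ≠ 0 by omega)) (T * T) 0).1 (by
      push_cast
      rw [zero_mul, add_zero]
      exact hTT)
    have h6 : r ∣ (T.natAbs) ^ 2 := by
      have h7 := Int.natAbs_dvd_natAbs.2 h3.1
      rw [Int.natAbs_natCast, Int.natAbs_mul, ← sq] at h7
      exact h7
    have h8 : r ∣ T.natAbs := (hsq.dvd_pow_iff_dvd (by norm_num)).1 h6
    exact Int.natCast_dvd.2 h8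
  have hrD : (r : ℤ) ∣ Q.D := by
    have h2 : (r : ℤ) ∣ Q.D * R ^ 2 := by
      have h3 : Q.D * R ^ 2 = T ^ 2 - 4 * N := by linarith
      rw [h3, hNeq]
      exact dvd_sub (dvd_pow hTr (by norm_num))
        (Dvd.intro (4 * (z : ℤ) ^ p) (by ring))
    have h3 : IsCoprime (r : ℤ) (R ^ 2) := (hcop.of_mul_right_left).symm.pow_right
    exact h3.dvd_of_dvd_mul_right h2
  refine ⟨θ₁, ?_, hθa, ?_, hcop, hrD⟩
  · rw [hθ', hθ₁]
  · rw [hN, hNeq]

end Pool.Agent.AP
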