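import Pool.Agent.helper3.AP.SpecG

/-!
Row `ap:GFF`: the fibres.
-/

set_option autoImplicit false

namespace Pool.Agent.AP

open Finset NumberField Pool.Agent.helper3.FT Pool.Agent.helper47.RA Pool.Agent.T5

/-- the size of `y` -/
theorem GFF_size (p : ℕ) (hp : 5 ≤ p) (D : ℤ) (hD : D < 0) (r z y : ℕ) (x : ℤ) (Y : ℝ) (hY : 1 ≤ Y)
    (h : TK p D r z y x) (hrz : (r : ℝ) * z ≤ Y) : (y : ℝ) ≤ 2 * Y ^ p := by
  have hr : 1 ≤ r := Nat.one_le_iff_ne_zero.2 h.sf.ne_zero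
  have hr' : (1 : ℝ) ≤ r := by exact_mod_cast hr
  have hz' : (1 : ℝ) ≤ z := by exact_mod_cast h.z1
  have hy' : (1 : ℝ) ≤ y := by exact_mod_cast h.y1
  have hzY : (z : ℝ) ≤ Y := by nlinarith
  obtain ⟨n, rfl⟩ : ∃ n, p = n + 1 := ⟨p - 1, by omega⟩
  have h1 : (r : ℝ) * (z : ℝ) ^ (n + 1) ≤ Y ^ (n + 1) := by
    have h2 : (r : ℝ) * (z : ℝ) ^ (n + 1) = (r * z) * (z : ℝ) ^ n := by ring
    rw [h2, pow_succ', ]
    exact mul_le_mul hrz (pow_le_pow_left₀ (by positivity) hzY n) (by positivity) (by linarith)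
  have h3 : (x : ℝ) ^ 2 - (D : ℝ) * (y : ℝ) ^ 2 = 4 * (r : ℝ) * (z : ℝ) ^ (n + 1) := by
    exact_mod_cast h.eq
  have h4 : (D : ℝ) ≤ -1 := by exact_mod_cast (show D ≤ -1 by omega)
  have h5 : (y : ℝ) ^ 2 ≤ 4 * Y ^ (n + 1) := by nlinarith [sq_nonneg (x : ℝ), sq_nonneg (y : ℝ)]
  have h6 : (1 : ℝ) ≤ Y ^ (n + 1) := one_le_pow₀ hY
  nlinarith

theorem GFF (hGTH : GTH_stmt) (hGCI : GCI_stmt) (hGUN : GUN_stmt) : GFF_stmt := by
  classical
  intro p hp hodd ε hε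
  have hp0 : (0 : ℝ) < p := by exact_mod_cast (show 0 < p by omega)
  obtain ⟨C₁, hC₁, hdiv⟩ := card_divisors_le (ε / p) (by positivity)
  have h2e : (1 : ℝ) ≤ 2 ^ (ε / p) := Real.one_le_rpow (by norm_num) (by positivity)
  refine ⟨25 * (C₁ * 2 ^ (ε / p)), by nlinarith, ?_⟩
  intro K _ _ Q Y a hD hY
  set S : Set Q4 := {t : Q4 | 1 ≤ t.2.2.1 ∧ (t.1 : ℝ) * t.2.1 ≤ Y ∧ ∃ f : ℕ, 1 ≤ f ∧
    TK p Q.D t.1 t.2.1 (t.2.2.1 * f) t.2.2.2 ∧
    aid Q t.1 t.2.1 t.2.2.2 ((t.2.2.1 * f : ℕ) : ℤ) = a} with hS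
  have hYe : (0 : ℝ) < Y ^ ε := Real.rpow_pos_of_pos (by linarith) _
  rcases Set.eq_empty_or_nonempty S with h0 | ⟨t₁, ht₁⟩
  · rw [h0]
    refine ⟨Set.finite_empty, ?_⟩
    rw [Set.ncard_empty]
    push_cast
    positivity
  obtain ⟨hy₁, hb₁, f₁, hf₁, hTK₁, ha₁⟩ := ht₁
  obtain ⟨-, hufin, hucard⟩ := hGUN K Q hD
  choose g hg _ using fun u : 𝓞 K => Q.exists_trace (u * th Q t₁.2.2.2 ((t₁.2.2.1 * f₁ : ℕ) : ℤ))
  let θ₁ : 𝓞 K := th Q t₁.2.2.2 ((t₁.2.2.1 * f₁ : ℕ) : ℤ)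
  let yy : 𝓞 K → ℕ := fun u => (Q.Y (u * θ₁)).toNat
  let F : 𝓞 K → Finset Q4 := fun u =>
    if 0 < yy u ∧ (yy u : ℝ) ≤ 2 * Y ^ p then
      (yy u).divisors.image (fun y => (t₁.1, t₁.2.1, y, g u)) else ∅
  have hsub : S ⊆ ((hufin.toFinset.biUnion F : Finset Q4) : Set Q4) := by
    rintro ⟨r, z, y, x⟩ ⟨hy, hb, f, hf, hTK, ha⟩
    obtain ⟨hr, hz, ⟨u, hu, hθ⟩, -⟩ := hGCI p K Q _ _ _ _ _ _ _ _ hp hodd hD hTK₁ hTK
      (ha₁.trans ha.symm)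
    have heq : x ^ 2 - Q.D * (((y * f : ℕ) : ℤ)) ^ 2 = 4 * ((r : ℤ) * (z : ℤ) ^ p) := by
      have := hTK.eq
      rw [this]
      ring
    obtain ⟨hY1, htr, -⟩ := (hGTH K Q).1 x _ _ heq
    have hY2 : Q.Y (u * θ₁) = ((y * f : ℕ) : ℤ) := by
      change Q.Y (u * th Q _ _) = _
      rw [← hθ]
      exact hY1
    have hyy : yy u = y * f := by
      change (Q.Y (u * θ₁)).toNat = _
      rw [hY2, Int.toNat_natCast]
    have hgx : g u = x := by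
      apply QF.int_inj (K := K)
      rw [← hg u, ← hθ]
      exact htr
    have hsz := GFF_size p hp Q.D hD r z (y * f) x Y hY hTK hb
    have hpos : 0 < y * f := hTK.y1
    rw [Finset.mem_coe, Finset.mem_biUnion]
    refine ⟨u, by rw [Set.Finite.mem_toFinset]; exact hu, ?_⟩
    change _ ∈ (if 0 < yy u ∧ (yy u : ℝ) ≤ 2 * Y ^ p then _ else _)
    rw [if_pos ⟨by rw [hyy]; exact hpos, by rw [hyy]; exact hsz⟩, Finset.mem_image]
    refine ⟨y, ?_, ?_⟩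
    · rw [hyy, Nat.mem_divisors]
      exact ⟨dvd_mul_right _ _, hpos.ne'⟩
    · rw [hgx]
      have hr' : t₁.1 = r := hr
      have hz' : t₁.2.1 = z := hz
      rw [hr', hz']
  have hfin : S.Finite := (Finset.finite_toSet _).subset hsub
  refine ⟨hfin, ?_⟩
  have hFc : ∀ u, ((F u).card : ℝ) ≤ C₁ * 2 ^ (ε / p) * Y ^ ε := by
    intro u
    change (((if 0 < yy u ∧ (yy u : ℝ) ≤ 2 * Y ^ p then
      (yy u).divisors.image (fun y => (t₁.1, t₁.2.1, y, g u)) else ∅ : Finset Q4).card : ℕ) : ℝ) ≤ _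
    split_ifs with h
    · have h1 : ((((yy u).divisors.image (fun y => (t₁.1, t₁.2.1, y, g u))).card : ℕ) : ℝ) ≤
          ((yy u).divisors.card : ℝ) := by exact_mod_cast Finset.card_image_le
      refine h1.trans ((hdiv _ h.1).trans ?_)
      rw [mul_assoc]
      refine mul_le_mul_of_nonneg_left ?_ (by linarith)
      have h2 : ((yy u : ℕ) : ℝ) ^ (ε / p) ≤ (2 * Y ^ p) ^ (ε / p) :=
        Real.rpow_le_rpow (by positivity) h.2 (by positivity)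
      refine h2.trans (le_of_eq ?_)
      rw [Real.mul_rpow (by norm_num) (by positivity), ← Real.rpow_natCast Y p,
        ← Real.rpow_mul (by linarith)]
      congr 2
      field_simp
    · rw [Finset.card_empty]
      push_cast
      positivity
  have h1 : S.ncard ≤ (hufin.toFinset.biUnion F).card := by
    have := Set.ncard_le_ncard hsub (Finset.finite_toSet _)
    rwa [Set.ncard_coe_finset] at this
  have h2 : (hufin.toFinset.biUnion F).card ≤ ∑ u ∈ hufin.toFinset, (F u).card :=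
    Finset.card_biUnion_le
  have h3 : (S.ncard : ℝ) ≤ ∑ u ∈ hufin.toFinset, ((F u).card : ℝ) := by
    exact_mod_cast h1.trans h2
  have h4 : (hufin.toFinset.card : ℝ) ≤ 25 := by
    rw [← Set.ncard_eq_toFinset_card _ hufin]
    exact_mod_cast hucard
  calc (S.ncard : ℝ) ≤ ∑ u ∈ hufin.toFinset, ((F u).card : ℝ) := h3
    _ ≤ ∑ _u ∈ hufin.toFinset, C₁ * 2 ^ (ε / p) * Y ^ ε := Finset.sum_le_sum fun u _ => hFc u
    _ = hufin.toFinset.card * (C₁ * 2 ^ (ε / p) * Y ^ ε) := by rw [Finset.sum_const, nsmul_eq_mul]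
    _ ≤ 25 * (C₁ * 2 ^ (ε / p) * Y ^ ε) := mul_le_mul_of_nonneg_right h4 (by positivity)
    _ = 25 * (C₁ * 2 ^ (ε / p)) * Y ^ ε := by ring

end Pool.Agent.AP
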