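import Pool.Agent.helper3.AP.SpecG

/-!
Row `ap:GTB`: tuples and solutions.
-/

set_option autoImplicit false

namespace Pool.Agent.AP

open Finset NumberField Pool.Agent.helper3.FT Pool.Agent.helper47.RA Pool.Agent.T5

theorem GTB_dp (p : ℕ) (D : ℤ) (r z y : ℕ) (x : ℤ) (hy : 1 ≤ y)
    (h : x ^ 2 - D * (y : ℤ) ^ 2 = 4 * (r : ℤ) * (z : ℤ) ^ p) :
    num p (r, z, y, x) = D * (y : ℤ) ^ 2 ∧ dp p (r, z, y, x) = D := by
  have hy0 : (y : ℤ) ^ 2 ≠ 0 := by positivity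
  have h1 : num p (r, z, y, x) = D * (y : ℤ) ^ 2 := by
    change x ^ 2 - 4 * (r : ℤ) * (z : ℤ) ^ p = _
    linarith
  refine ⟨h1, ?_⟩
  change num p (r, z, y, x) / (y : ℤ) ^ 2 = D
  rw [h1, Int.mul_ediv_cancel _ hy0]

theorem GTB_TK (p : ℕ) (N Y : ℝ) (t : Q4) (h : Bas p N Y t) :
    TK p (dp p t) t.1 t.2.1 t.2.2.1 t.2.2.2 := by
  refine ⟨h.r1, h.z1, h.y1, h.co, h.rD, ?_⟩
  have h1 : dp p t * (t.2.2.1 : ℤ) ^ 2 = num p t := Int.ediv_mul_cancel h.dv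
  rw [h1]
  unfold num
  ring

theorem GTB : GTB_stmt := by
  refine ⟨fun p N Y t h => GTB_TK p N Y t h, ?_⟩
  intro p N Y D r z y x
  constructor
  · rintro ⟨h, rfl⟩
    exact ⟨GTB_TK p N Y _ h, h.Y1, h.Y2, h.N1, h.N2⟩
  · rintro ⟨h, h1, h2, h3, h4⟩
    obtain ⟨e1, e2⟩ := GTB_dp p D r z y x h.y1 h.eq
    refine ⟨⟨h.sf, h.z1, h.y1, h.co, ?_, ?_, h1, h2, ?_, ?_⟩, e2⟩
    · rw [e1]
      exact dvd_mul_left _ _
    · rw [e2]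
      exact h.rD
    · rw [e2]
      exact h3
    · rw [e2]
      exact h4

end Pool.Agent.AP
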