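import Pool.Agent.helper3.AP.SpecG
import Pool.Agent.helper5.T5.SFA
import Pool.Agent.helper65.T5.UEA
import Pool.Agent.helper11.T5.APPR
import Pool.Agent.helper3.AP.GAP
import Pool.Agent.helper3.AP.GBI
import Pool.Agent.helper3.AP.GBE
import Pool.Agent.helper3.AP.GTB
import Pool.Agent.helper3.AP.GFF
import Pool.Agent.helper68.AP.GTH
import Pool.Agent.helper68.AP.GAR
import Pool.Agent.helper68.AP.GUN
import Pool.Agent.helper68.AP.GCI
import Pool.Agent.helper68.AP.GAS
import Pool.Agent.helper68.AP.GFT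
import Pool.Agent.helper68.AP.GFB
import Pool.Agent.helper23.AP.GAI
import Pool.Agent.helper23.AP.GAE
import Pool.Agent.helper45.AP.GAT
import Pool.Agent.helper11.AP.GBF
import Pool.Agent.helper11.AP.GPR
import Pool.Agent.helper72.AP.GPA
import Pool.Agent.helper53.AP.GFD

set_option autoImplicit false

/-! # Block G of AP: closed theorems -/

namespace Pool.Agent.AP

theorem gGTH : GTH_stmt := GTH
theorem gGAR : GAR_stmt := GAR
theorem gGAI : GAI_stmt := GAI gGTH gGAR
theorem gGAP : GAP_stmt := GAP gGTH gGAR gGAI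
theorem gGBI : GBI_stmt := GBI Pool.Agent.T5.UEA
theorem gGBE : GBE_stmt := GBE Pool.Agent.T5.UEA gGBI gGTH gGAI
theorem gGUN : GUN_stmt := GUN
theorem gGCI : GCI_stmt := GCI gGTH gGAR gGAI gGAP gGUN
theorem gGTB : GTB_stmt := GTB
theorem gGAE : GAE_stmt := GAE gGTB gGAI gGAP gGBE gGCI Pool.Agent.T5.APPR
theorem gGFT : GFT_stmt := GFT gGTB
theorem gGFF : GFF_stmt := GFF gGTH gGCI gGUN
theorem gGFD : GFD_stmt := GFD Pool.Agent.T5.SFA gGAI gGAP gGFF

/-- the tuples of one box are finitely many -/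
theorem gBF : BF_stmt := GBF gGTB

/-- ideals of order `p` are tuples -/
theorem gAE : AEP_stmt := GAS gBF Pool.Agent.T5.SFA gGAE

/-- the trivial bound -/
theorem gAT : ATP_stmt := GAT

/-- principal ideals -/
theorem gPR : PR_stmt := GPR GPA

/-- tuples whose number is not fundamental -/
theorem gFB : FBP_stmt := GFB gBF gGFT gGFD

end Pool.Agent.AP
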