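import Pool.Agent.helper94.AP.Defs
import Pool.Agent.helper3.T5.SpecA
import Pool.Agent.helper8.T5.SpecU

set_option autoImplicit false

/-!
# AP (MP_16912e_nt), block G: algebra. Ideals and tuples, for every prime `p ≥ 5`

RULES. Row `ap:XXX` is a file `Pool/Agent/<seat>/AP/XXX.lean`: `import Pool.Agent.helper3.AP.SpecG`, `set_option autoImplicit false`, `namespace Pool.Agent.AP`,
`open Finset NumberField Pool.Agent.helper3.FT Pool.Agent.helper47.RA Pool.Agent.T5`, and `theorem XXX (hYYY : YYY_stmt) .. : XXX_stmt`, whose EXACT line is in the lock note (other rows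
only as hypotheses; an unused hypothesis may stay; proved statements of T5 (`SFA_stmt`, `UEA_stmt`, `ASQF_stmt`, `APPR_stmt`, ..) may be added). Auxiliary lemmas are prefixed `XXX_`. No `convert`,
`congr!`, `native_decide`, no double quotes.

AVAILABLE (all imported; namespace `Pool.Agent.helper3.FT`): `Pool/Agent/helper61/FT/A1.lean` (`QF.t_sq`, `QF.D_ne_zero`, `QF.int_inj`, `QF.delta_sq`, `QF.cj_int`, `QF.cj_cj`, `QF.exists_re`, `QF.Y_spec`, `QF.Y_eq`, `QF.Y_add`, `QF.Y_sub`,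
`QF.Y_int`, `QF.Y_int_mul`, `QF.Y_cj`, `QF.sub_cj : a - cj a = Y a * (2ω - t)`, `QF.norm_form`, `QF.absNorm_eq`, `QF.exists_norm`, `QF.exists_trace`, `QF.int_dvd_iff`, `QF.dvd_of_dvd : q prime, q ∣ Y x, q ∣ N x → q ∣ x`),
`helper96/FT/A2.lean` (`pow_inj`, `QF.bar_mul`, `QF.bar_pow`, `QF.bar_span`, `QF.bar_bar`, `QF.absNorm_bar`, `QF.mul_bar : I * bar I = span {absNorm I}`), `helper96/FT/A4a.lean` (`h96_eq_of_dvd : I ∣ J → absNorm J ≠ 0 → absNorm I =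
absNorm J → I = J`, `h96_norm_q : absNorm (span {q}) = q ^ 2`, `h96_bar_q`), `helper96/FT/A4b.lean` (`QF.h96_Y_mul`, `QF.h96_dvd_Y`), `helper8/FT/A5a.lean` (`exists_div_aux`, `exists_div`), `helper52/FT/A6a.lean` (`h52_ext`: equal trace and
`Y`), `helper8/FT/A7.lean` (`fund_ne_zero`, `fund_unique`, `ncard_sum_eq`), `Pool.Agent.helper47.RA.card_divisors_le` (`helper47/RA/Num.lean`), `Pool.Agent.helper47.RA.card_ideals_le` (`helper47/RA/Ideals.lean`).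

NOTATION: `θ = th Q x y`, `n' = r z`, `a = aid Q r z x y = span {θ, n'}`, `c = r ^ ((p - 1) / 2)`, `N x = x * cj x`.
-/

namespace Pool.Agent.AP

open Finset NumberField Pool.Agent.helper3.FT Pool.Agent.helper47.RA Pool.Agent.T5

/-- the solutions of `x² - D y² = 4 r z^p` for one field -/
structure TK (p : ℕ) (D : ℤ) (r z y : ℕ) (x : ℤ) : Prop where
  sf : Squarefree r
  z1 : 1 ≤ z
  y1 : 1 ≤ y
  co : Nat.Coprime y (r * z)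
  rD : (r : ℤ) ∣ D
  eq : x ^ 2 - D * (y : ℤ) ^ 2 = 4 * (r : ℤ) * (z : ℤ) ^ p

section defs

variable {K : Type} [Field K] [NumberField K]

/-- `θ = (x + y √D) / 2` -/
noncomputable def th (Q : QF K) (x y : ℤ) : 𝓞 K := (((x - Q.t * y) / 2 : ℤ) : 𝓞 K) + (y : 𝓞 K) * Q.ω

/-- the ideal `(θ, r z)` -/
noncomputable def aid (Q : QF K) (r z : ℕ) (x y : ℤ) : Ideal (𝓞 K) := Ideal.span {th Q x y, ((r * z : ℕ) : 𝓞 K)}

end defs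

/-! ## One field -/

/-- **GTH** (short). Facts on `θ`. (1) `D = t + 4 k`, `t = 0, 1`: `x² - D y² = 0` modulo 4 gives `x = t y` modulo 2, so `2 x₁ = x - t y` with `x₁ = (x - t y) / 2`. `Y_spec`; trace `2 x₁ + t y = x` (`cj_form`); `norm_form`: `4 (x₁² + t x₁ y - k y²) = x² - D y²` (`t² = t`).
(2) `θ = x₁ + Y ω` (`exists_re`), `x = 2 x₁ + t Y`; `absNorm_eq`; `D < 0`: `4 m = x² - D Y² ≥ 0`. (3) `Y` and the trace, by (1). -/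
def GTH_stmt : Prop := ∀ (K : Type) [Field K] [NumberField K] (Q : QF K),
  (∀ x y m : ℤ, x ^ 2 - Q.D * y ^ 2 = 4 * m → Q.Y (th Q x y) = y ∧ th Q x y + Q.cj (th Q x y) = (x : 𝓞 K) ∧
    th Q x y * Q.cj (th Q x y) = (m : 𝓞 K)) ∧
  (∀ θ : 𝓞 K, ∃ x m : ℤ, θ = th Q x (Q.Y θ) ∧ θ + Q.cj θ = (x : 𝓞 K) ∧ θ * Q.cj θ = (m : 𝓞 K) ∧
    x ^ 2 - Q.D * (Q.Y θ) ^ 2 = 4 * m ∧ (Ideal.absNorm (Ideal.span {θ}) : ℤ) = |m| ∧ (Q.D < 0 → 0 ≤ m)) ∧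
  (∀ x y m x' y' m' : ℤ, x ^ 2 - Q.D * y ^ 2 = 4 * m → x' ^ 2 - Q.D * y' ^ 2 = 4 * m' →
    th Q x y = th Q x' y' → x = x' ∧ y = y')

/-- **GAR** (short; pure arithmetic). (1) `q ∣ z`, `q ∣ D`: `q ∣ x² = D y² + 4 r z^p`, so `q ∣ x`, `q² ∣ x²`, `q² ∣ z^p`, so `q² ∣ D y²`, `q ∤ y` (`co`), `q² ∣ D`, so (`IsFund`) `q = 2`, `D = 4 m`, `m = 2, 3` modulo 4, `x = 2 x₁`, `x₁² - m y² = r z^p = 0` modulo 4, `y` odd, `y² = 1` modulo 4: `x₁² = m` modulo 4: impossible.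
(2) `r ∣ x²` (`r ∣ D`), `r` squarefree. (3) a prime `q ∣ x, z` divides `D y²`, `q ∤ y`, so `q ∣ D`, against (1). (4), (5) from (1) and `r ∣ D`: `gcd (r z, D) = r`. `r ≠ 0`: `Squarefree 0` is false. -/
def GAR_stmt : Prop := ∀ (p : ℕ) (D : ℤ) (r z y : ℕ) (x : ℤ), 5 ≤ p → IsFund D → TK p D r z y x →
  (∀ q : ℕ, q.Prime → q ∣ z → ¬ (q : ℤ) ∣ D) ∧ (r : ℤ) ∣ x ∧ IsCoprime x (z : ℤ) ∧ Nat.Coprime r z ∧
    Nat.gcd (r * z) D.natAbs = r ∧ 1 ≤ r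

/-- **GAI** (short to medium; from GTH, GAR). `a ā` is spanned by `θ θ̄ = r z^p = n' z^(p-1)`, `n' θ`, `n' θ̄`, `n'²` (`Ideal.span_mul_span`, or products of elements), so it is contained in `(n')`. Conversely: it contains `n' x = n' θ + n' θ̄` and `n' z^(p-1)`, and `x`, `z^(p-1)` are coprime integers: it contains `n'`.
So `a ā = (n')`, `absNorm a ^ 2 = n'²` (`absNorm_bar`, `h96_norm_q`). Prim: `(q) ∣ a` gives `q ∣ θ`, so `q ∣ y` (`h96_dvd_Y`), and `q ∣ n'` (`int_dvd_iff` with second coordinate 0), against `co`. -/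
def GAI_stmt : Prop := ∀ (p : ℕ) (K : Type) [Field K] [NumberField K] (Q : QF K) (r z y : ℕ) (x : ℤ), 5 ≤ p →
  TK p Q.D r z y x → aid Q r z x y * Q.bar (aid Q r z x y) = Ideal.span {((r * z : ℕ) : 𝓞 K)} ∧
    Ideal.absNorm (aid Q r z x y) = r * z ∧ Prim (aid Q r z x y)

/-- **GAP** (medium; from GTH, GAR, GAI). `a ^ p = (c θ)`. `a ^ p` is the span of the set `{θ, n'} ^ p` (`Ideal.span_pow` or `Submodule.span_pow`), whose elements are `θ^i n'^(p-i)`, `i ≤ p` (induction on `p`). Each is divisible by `c θ`: `i = 0`: `n'^p = r^(p-1) (r z^p) = r^(p-1) θ θ̄`, `c ∣ r^(p-1)`. `i ≥ 1`: `c ∣ θ^(i-1) n'^(p-i)`,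
as `r ∣ n'` and `r ∣ θ² = x θ - r z^p` (`r ∣ x` by GAR): `i - 1 = 2 j`: `r^(j + p - i)` divides it, `j + p - i = p - 1 - j ≥ (p-1)/2`; `i - 1 = 2 j + 1`: `j + p - i = p - 2 - j ≥ (p-1)/2` because `2 j + 2 ≤ p - 1` (`p` is odd). So `a ^ p ≤ (c θ)`. Norms: `absNorm (a ^ p) = (r z)^p`,
`absNorm (c θ) = r^(p-1) · r z^p` (`absNorm_eq` for `c θ`: `N (c θ) = c² r z^p`). `h96_eq_of_dvd`. -/
def GAP_stmt : Prop := ∀ (p : ℕ) (K : Type) [Field K] [NumberField K] (Q : QF K) (r z y : ℕ) (x : ℤ), 5 ≤ p → Odd p →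
  TK p Q.D r z y x → aid Q r z x y ^ p = Ideal.span {(r : 𝓞 K) ^ ((p - 1) / 2) * th Q x y}

/-- **GBI** (medium; ADAPTATION of `Pool/Agent/helper83/T5/UEI.lean`, which is `p = 5`; from UEA). `r = rr Q a`, `z = zz Q a`, `I, b` of UEA: `a^p = I^(p-1) I b^p = (c) I b^p` (`I² = (r)`), so the generator of `a^p` is `c θ` with `(θ) = I b^p` (`exists_div_aux`). `θ ∈ I b^p ≤ I b = a`. `N θ = ± absNorm (I b^p) = r z^p`, `≥ 0` as `D < 0`.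
COPRIME: a prime `q ∣ Y θ`, `q ∣ r z` divides `N θ`, so `q ∣ θ` (`dvd_of_dvd`), `(q) ∣ I b^p`, by conjugation `(q) ∣ I b̄^p`, so `(q) ∣ I (b^p ⊔ b̄^p) = I ∣ a`, against `Prim a`. `r ∣ D`: with `T = θ + θ̄` (an integer): `T ∈ I` (`θ̄ ∈ Ī = I`), `T² ∈ I² = (r)`, `r ∣ T² = D Y² + 4 r z^p`, `gcd (r, Y) = 1`. -/
def GBI_stmt : Prop := ∀ (p : ℕ) (K : Type) [Field K] [NumberField K] (Q : QF K), 5 ≤ p → Odd p → Q.D < 0 →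
  ∀ a : Ideal (𝓞 K), a ≠ ⊥ → Prim a → (a ^ p).IsPrincipal → ∃ θ : 𝓞 K,
    a ^ p = Ideal.span {(rr Q a : 𝓞 K) ^ ((p - 1) / 2) * θ} ∧ θ ∈ a ∧
    θ * Q.cj θ = (((rr Q a : ℤ) * (zz Q a : ℤ) ^ p : ℤ) : 𝓞 K) ∧
    IsCoprime (Q.Y θ) ((rr Q a : ℤ) * zz Q a) ∧ (rr Q a : ℤ) ∣ Q.D

/-- **GBE** (short to medium; from UEA, GBI, GTH, GAI). `θ` of GBI. `Y θ ≠ 0`: otherwise `IsCoprime 0 (r z)`, `r z = 1`, `absNorm a = 1` (UEA), `a = ⊤` is principal. If `Y θ < 0` take `-θ`. `y = Y θ`, `x` the trace: `TK` (UEA: `r` squarefree, `1 ≤ z`; GTH (2): `x² - D y² = 4 m`, `m = r z^p` by `int_inj`), `θ = th Q x y`.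
`aid ≤ a`: `θ ∈ a`, `r z = absNorm a ∈ a` (`Ideal.absNorm_mem`). Norms are equal (GAI): `h96_eq_of_dvd`. -/
def GBE_stmt : Prop := ∀ (p : ℕ) (K : Type) [Field K] [NumberField K] (Q : QF K), 5 ≤ p → Odd p → Q.D < 0 →
  ∀ a : Ideal (𝓞 K), a ≠ ⊥ → Prim a → (a ^ p).IsPrincipal → ¬ a.IsPrincipal →
  ∃ (r z y : ℕ) (x : ℤ), TK p Q.D r z y x ∧ a = aid Q r z x y

/-- **GUN** (short). Units. `ε ε̄ = m` (`exists_norm`), `|m| = absNorm (ε) = 1`, `m ≥ 0`: `m = 1`; `ε = u + v ω`: `4 = (2 u + t v)² - D v²`. `D < -4`: `v = 0`, `ε = u = ±1`. `D ≤ -1`: `|v| ≤ 2`, `|2 u + t v| ≤ 2`: the map `ε ↦ (2 u + t v, v)` into `Icc (-2) 2 ×ˢ Icc (-2) 2` is injective. -/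
def GUN_stmt : Prop := ∀ (K : Type) [Field K] [NumberField K] (Q : QF K), Q.D < 0 →
  (Q.D < -4 → ∀ ε : 𝓞 K, IsUnit ε → ε = 1 ∨ ε = -1) ∧ {ε : 𝓞 K | IsUnit ε}.Finite ∧
    {ε : 𝓞 K | IsUnit ε}.ncard ≤ 25

/-- **GCI** (short to medium; from GTH, GAR, GAI, GAP, GUN). `r z = r' z'` (norms, GAI), `r = gcd (r z, D) = r'` (GAR), `z = z'` (`r ≥ 1`). GAP: `(c θ) = a^p = (c θ')`, so `θ' = ε θ`, `ε` a unit (`Ideal.span_singleton_eq_span_singleton`, `Associated`; cancel `c ≠ 0`). `D < -4`: `ε = ±1` (GUN), `Y θ' = ± Y θ`, i.e. `y' = ± y`, `y, y' ≥ 1`,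
so `ε = 1` and GTH (3). -/
def GCI_stmt : Prop := ∀ (p : ℕ) (K : Type) [Field K] [NumberField K] (Q : QF K) (r z y r' z' y' : ℕ) (x x' : ℤ),
  5 ≤ p → Odd p → Q.D < 0 → TK p Q.D r z y x → TK p Q.D r' z' y' x' → aid Q r z x y = aid Q r' z' x' y' →
  r = r' ∧ z = z' ∧ (∃ ε : 𝓞 K, IsUnit ε ∧ th Q x' y' = ε * th Q x y) ∧ (Q.D < -4 → y = y' ∧ x = x')

/-! ## Tuples -/

/-- **GTB** (short). `(y : ℤ) ^ 2 ∣ num p t` means `num p t = dp p t * y ^ 2`; conversely `x² - 4 r z^p = D y²` gives `dp = D` (`Int.ediv_eq_of_eq_mul_left`, `y ≠ 0`) and the divisibility. -/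
def GTB_stmt : Prop :=
  (∀ (p : ℕ) (N Y : ℝ) (t : Q4), Bas p N Y t → TK p (dp p t) t.1 t.2.1 t.2.2.1 t.2.2.2) ∧
  ∀ (p : ℕ) (N Y : ℝ) (D : ℤ) (r z y : ℕ) (x : ℤ), (Bas p N Y (r, z, y, x) ∧ dp p (r, z, y, x) = D) ↔
    (TK p D r z y x ∧ Y / 2 < (r : ℝ) * z ∧ (r : ℝ) * z ≤ Y ∧ N / 2 < -(D : ℝ) ∧ -(D : ℝ) ≤ N)

/-- **GAE** (medium; from GTB, GAI, GAP, GBE, GCI, APPR). One discriminant. `D ≤ -9` (`N ≥ 16`), `E.hD : E.Q.D = D`. The map `(r, z, y, x) ↦ aid E.Q r z x y` is a bijection of the set on the right onto `IAp p E.K Y`. Well defined: GTB gives `TK`; `absNorm = r z` and `Prim` (GAI), `a^p` principal (GAP), `a ≠ ⊥` (norm `≠ 0`); not principal: APPR would give `r z = 1`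
(`4 r z ≤ 4 Y < N / 2 < -D`), but `r z > Y / 2 ≥ 1`. Injective: GCI (`D < -4`). Surjective: GBE and GTB. `IAp` is finite: `Ideal.finite_setOf_absNorm_le`. (`Set.ncard_congr`, or `Set.BijOn` and `Set.InjOn.ncard_image`.) -/
def GAE_stmt : Prop := ∀ p : ℕ, p.Prime → 5 ≤ p → ∀ N Y : ℝ, 16 ≤ N → 2 ≤ Y → 8 * Y < N → ∀ D ∈ DN N, ∀ E : Fld D,
  (IAp p E.K Y).ncard = {t : Q4 | Bas p N Y t ∧ dp p t = D}.ncard

/-- **GAS** (short; from BF, SFA, GAE): the sum over `D`. `cAp p D Y = (IAp p h.some.K Y).ncard`, a field exists for all `D ∈ DN N` (SFA (3)). `ncard_sum_eq` (`Pool/Agent/helper8/FT/A7.lean`) for the sets `{t | Bas p N Y t ∧ dp p t = D}`, `D ∈ DN N`, which are finite (BF) and disjoint; their union is `{t | Bas p N Y t ∧ IsFund (dp p t)}`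
(`Bas` gives `N / 2 < -dp ≤ N`, so `dp ∈ DN N` iff `IsFund`; `-⌊N⌋ ≤ dp`: `Int.le_floor`). -/
def AEP_stmt : Prop := ∀ p : ℕ, p.Prime → 5 ≤ p → AE_stmt p

/-- **GAT** (short to medium). The trivial bound. `card_ideals_le` for `E.Q` (`Q.hD, Q.ht, Q.hk, Q.hω, Q.hspan`) and `B = ⌊Y⌋₊ ≥ 1`: `(IAp p E.K Y).ncard ≤ C B^(1+ε) ≤ C Y^(1+ε)` (`IAp` is contained in that finite set: `a ≠ ⊥` gives `0 < absNorm a`). `card (DN N) ≤ ⌊N⌋ ≤ N`. -/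
def ATP_stmt : Prop := ∀ p : ℕ, AT_stmt p

/-- **GPA** (medium). Principal ideals of one field. Let `a ∈ IPr K Y`, `a = (α)`, `α = u + v ω`, `X = 2 u + t v`: `4 absNorm a = X² - D v²` (`norm_form`, `absNorm_eq`, `D < 0`), so `X² ≤ 4 Y`, `(N / 2) v² ≤ 4 Y`, i.e. `|v| ≤ √(8 Y / N)`, `|X| ≤ 2 √Y`. `v ≠ 0`: if `v = 0` then `a = (u)`, and `Prim a` gives `u = ±1` (a prime `q ∣ u`
has `(q) ∣ (u)`), `absNorm a = 1 ≤ Y / 2`: contradiction. Choose `α` for every `a`: `a ↦ (X, v)` is injective, into a set with at most `(4 √Y + 1) · 2 √(8 Y / N)` elements (the integers `v ≠ 0` with `|v| ≤ V` are at most `2 V`). -/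
def GPA_stmt : Prop := ∀ (K : Type) [Field K] [NumberField K] (Q : QF K) (N Y : ℝ), 1 ≤ N → 2 ≤ Y → N / 2 < -(Q.D : ℝ) →
  Q.D < 0 → (IPr K Y).Finite ∧ ((IPr K Y).ncard : ℝ) ≤ 2 * √(8 * Y / N) * (4 * √Y + 1)

/-- **GFT** (short to medium; from GTB). `D = dp p t = D₀ f² < 0`, so `D₀ < 0`, `f ≥ f₀ ≥ 1`. `TK`: `x² - D₀ (y f)² = x² - D y² = 4 r z^p`; `y f` is prime to `r z`; `r ∣ D₀ f²`, `gcd (r, f) = 1`, so `r ∣ D₀`. `N' = N / f₀²`: `-D₀ = -D / f² ≤ N'`, `-D₀ ≥ 1`. Let `i` be the largest number with `-D₀ ≤ N' / 2^i` (`2^i ≤ N' ≤ N < 2^I`, so `i < I`;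
`Nat.find` or `Nat.findGreatest`): `N' / 2^(i+1) < -D₀`. Membership in `DN`: `Int.le_floor`. -/
def GFT_stmt : Prop := ∀ (p : ℕ) (N Y f₀ : ℝ) (I : ℕ), 1 ≤ N → 1 ≤ f₀ → f₀ ^ 2 ≤ N → N < 2 ^ I → ∀ t : Q4, Bas p N Y t →
  ∀ (D₀ : ℤ) (f : ℕ), IsFund D₀ → dp p t = D₀ * (f : ℤ) ^ 2 → f₀ ≤ f → Nat.Coprime f (t.1 * t.2.1) →
  TK p D₀ t.1 t.2.1 (t.2.2.1 * f) t.2.2.2 ∧ D₀ < 0 ∧ 1 ≤ f ∧ ∃ i ∈ range I, D₀ ∈ DN (N / f₀ ^ 2 / 2 ^ i)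

/-- **GFF** (medium; from GTH, GCI, GUN, and the divisor bound `card_divisors_le`). The fibres. If the set is empty nothing to do. Fix `t₁`, `f₁` in it and put `θ₁ = th Q x₁ (y₁ f₁)`. For `t`, `f` in it: `r = r₁`, `z = z₁`, `th Q x (y f) = ε θ₁`, `ε` a unit (GCI): so `y f = Y (ε θ₁)` and `x` = the trace of `ε θ₁` (GTH (1)): at most 25 pairs `(x, y')`,
`y' = y f ≥ 1` (GUN), and `y ∣ y'`: at most `τ(y')` values of `y`. `y'² ≤ -D y'² ≤ 4 r z^p = 4 (r z) z^(p-1) ≤ 4 Y^p` (`z ≤ r z ≤ Y`), so `y' ≤ 2 Y^p`, `τ(y') ≤ C₁ (2 Y^p)^(ε/p) ≤ 2^(ε/p) C₁ Y^ε`. -/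
def GFF_stmt : Prop := ∀ p : ℕ, 5 ≤ p → Odd p → ∀ ε : ℝ, 0 < ε → ∃ C : ℝ, 1 ≤ C ∧ ∀ (K : Type) [Field K] [NumberField K]
  (Q : QF K) (Y : ℝ) (a : Ideal (𝓞 K)), Q.D < 0 → 1 ≤ Y →
  {t : Q4 | 1 ≤ t.2.2.1 ∧ (t.1 : ℝ) * t.2.1 ≤ Y ∧ ∃ f : ℕ, 1 ≤ f ∧ TK p Q.D t.1 t.2.1 (t.2.2.1 * f) t.2.2.2 ∧
    aid Q t.1 t.2.1 t.2.2.2 ((t.2.2.1 * f : ℕ) : ℤ) = a}.Finite ∧
  ({t : Q4 | 1 ≤ t.2.2.1 ∧ (t.1 : ℝ) * t.2.1 ≤ Y ∧ ∃ f : ℕ, 1 ≤ f ∧ TK p Q.D t.1 t.2.1 (t.2.2.1 * f) t.2.2.2 ∧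
    aid Q t.1 t.2.1 t.2.2.2 ((t.2.2.1 * f : ℕ) : ℤ) = a}.ncard : ℝ) ≤ C * Y ^ ε

/-- **GFD** (short to medium; from SFA, GAI, GAP, GFF). One discriminant `D₀`. `E` = the chosen field (`h.some`), it exists by SFA (3). The set is contained in the union over `a ∈ IAp p E.K Y ∪ IPr E.K Y` (finite: `Ideal.finite_setOf_absNorm_le`) of the sets of GFF: `a = aid E.Q r z x (y f)` is Prim, of norm `r z ∈ (Y / 2, Y]`, `a^p` is principal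
(GAI, GAP). `cAp`, `cPr` are evaluations at the chosen field. (`Set.ncard_le_ncard`, `Finset.card_biUnion_le`.) -/
def GFD_stmt : Prop := ∀ p : ℕ, p.Prime → 5 ≤ p → ∀ ε : ℝ, 0 < ε → ∃ C : ℝ, 1 ≤ C ∧ ∀ (D₀ : ℤ) (Y : ℝ), IsFund D₀ → D₀ < 0 →
  1 ≤ Y → {t : Q4 | 1 ≤ t.2.2.1 ∧ Y / 2 < (t.1 : ℝ) * t.2.1 ∧ (t.1 : ℝ) * t.2.1 ≤ Y ∧
    ∃ f : ℕ, 1 ≤ f ∧ TK p D₀ t.1 t.2.1 (t.2.2.1 * f) t.2.2.2}.Finite ∧
  ({t : Q4 | 1 ≤ t.2.2.1 ∧ Y / 2 < (t.1 : ℝ) * t.2.1 ∧ (t.1 : ℝ) * t.2.1 ≤ Y ∧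
    ∃ f : ℕ, 1 ≤ f ∧ TK p D₀ t.1 t.2.1 (t.2.2.1 * f) t.2.2.2}.ncard : ℝ) ≤ C * Y ^ ε * ((cAp p D₀ Y : ℝ) + cPr D₀ Y)

/-- **GFB** (short to medium; from GFT, GFD): the sum over `D₀`. The set of `FB_stmt` is contained in the union over `i ∈ range I` and `D₀ ∈ DN (N / f₀² / 2^i)` of the sets of GFD (GFT; `Bas` gives `Y1`, `Y2`, `y1`), which are finite; `Y^ε ≤ (N Y)^ε`; `AA`, `PA` are the sums of `cAp`, `cPr`. -/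
def FBP_stmt : Prop := ∀ p : ℕ, p.Prime → 5 ≤ p → FB_stmt p

end Pool.Agent.AP
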